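import Pool.Agent.P.MP_3f5ce9_co.W.AMain
import Pool.Agent.P.MP_3f5ce9_co.W.BMain
import Pool.Agent.P.MP_3f5ce9_co.W.HMain
import Pool.Agent.P.MP_3f5ce9_co.W.Fin1
import Pool.Agent.P.MP_3f5ce9_co.W.Fin2

/-!
Unique exchanges alone, with no reordering, connect compatible base sequences of a regular
matroid.
-/

namespace Pool.Agent.Results.MP_3f5ce9_co.Ordered

/-- `M` is regular: for every field `K` there is a matrix over `K` whose columns are indexed by the
elements of `M` such that a set is independent iff its columns are linearly independent. -/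
def IsRegular {n : ℕ} (M : Matroid (Fin n)) : Prop :=
  ∀ (K : Type) [Field K], ∃ (r : ℕ) (A : Matrix (Fin r) (Fin n) K), ∀ I : Finset (Fin n),
    (M.Indep (↑I : Set (Fin n)) ↔ LinearIndependent K (fun i : I => A.transpose (i : Fin n)))

open Pool.Agent.P.MP_3f5ce9_co in
theorem result :
    ∀ (n : ℕ) (M : Matroid (Fin n)), M.E = Set.univ → IsRegular M →
      ∀ (m : ℕ), 2 ≤ m →
      ∀ (S T : Fin m → Finset (Fin n)),
        (∀ i, M.IsBase (↑(S i) : Set (Fin n))) →
        (∀ i, M.IsBase (↑(T i) : Set (Fin n))) →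
        (∀ e : Fin n, (Finset.univ.filter (fun i => e ∈ S i)).card
                        = (Finset.univ.filter (fun i => e ∈ T i)).card) →
        Relation.ReflTransGen
          (fun P Q : Fin m → Finset (Fin n) =>
            ∃ i j : Fin m, i ≠ j ∧ ∃ x y : Fin n, x ∈ P i ∧ y ∈ P j ∧
              (∀ z ∈ P j,
                ((M.IsBase (↑(insert z ((P i).erase x)) : Set (Fin n)) ∧
                  M.IsBase (↑(insert x ((P j).erase z)) : Set (Fin n))) ↔ z = y)) ∧
              Q = Function.update (Function.update P i (insert y ((P i).erase x))) j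
                    (insert x ((P j).erase y)))
          S T := by
  intro n M _ hR m hm S T hS hT hc
  have : Fact (Nat.Prime 3) := ⟨Nat.prime_three⟩
  obtain ⟨r2, A2, h2⟩ := hR (ZMod 2)
  obtain ⟨r3, A3, h3⟩ := hR (ZMod 3)
  obtain ⟨N, hE, hN⟩ := BM.exists_of_vec (Finset.range n)
    (fun e : ℕ => if h : e < n then A2.transpose ⟨e, h⟩ else 0)
  have hI : ∀ I : Finset (Fin n),
      M.Indep (↑I : Set (Fin n)) ↔ N.Indep (I.map Fin.valEmbedding) := by
    intro I
    rw [hN.indep_iff, hE, and_iff_right (f1_sub I), f1_on, h2]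
  have hN' : N.Reg := BM.Reg.of_indep
    (fun e : ℕ => if h : e < n then A3.transpose ⟨e, h⟩ else 0) fun X hX => by
      obtain ⟨I, rfl⟩ := f1_map (hE ▸ hX)
      rw [← hI, f1_on, h3]
  have hB := isBase_iff_of_indep M N hE hI
  have h1 := final_reach (BM.ueall_of_reg Gr.conn_all) BM.te_of_reg hN' hm
    (fun i => (S i).map Fin.valEmbedding) (fun i => (T i).map Fin.valEmbedding)
    (fun i => (hB _).1 (hS i)) (fun i => (hB _).1 (hT i))
    (fun e => by
      by_cases he : e < n
      · have h := hc ⟨e, he⟩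
        have k : ∀ F : Finset (Fin n), e ∈ F.map Fin.valEmbedding ↔ (⟨e, he⟩ : Fin n) ∈ F :=
          fun F => Finset.mem_map' (a := (⟨e, he⟩ : Fin n)) Fin.valEmbedding
        simpa only [k] using h
      · have k : ∀ F : Finset (Fin n), ¬ e ∈ F.map Fin.valEmbedding := fun F hF => by
          obtain ⟨x, -, rfl⟩ := Finset.mem_map.1 hF
          exact he x.2
        simp only [k])
  exact uany_transfer (fun F => M.IsBase (↑F : Set (Fin n)))
    N.IsBase hB (fun F hF => hE ▸ hF.subset) S T hS h1

end Pool.Agent.Results.MP_3f5ce9_co.Ordered
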